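import Pool.Agent.H987.Z.StC

/-! Project Z of helper987, C5: the product measure over the vertices of the tree of sheets, split at
the root sheet (adapted from the library file `Y662/TR/Split.lean`). -/

set_option autoImplicit false
set_option linter.unusedSectionVars false

open scoped BigOperators Topology ENNReal
open MeasureTheory Filter ProbabilityTheory

namespace Pool.Agent.H282.Z987

open Pool.Agent.H987.Z

variable {G : Type} {n : ℕ}

/-- the vertices of the root sheet -/
def f0 (x : G) : Vt G n := ([], x)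

/-- the other vertices -/
def f1 (p : Ix G n × Vt G n) : Vt G n := (p.2.1 ++ [p.1], p.2.2)

theorem f0_inj : Function.Injective (f0 (G := G) (n := n)) := by
  intro x y h
  unfold f0 at h
  simpa using h

theorem f1_inj : Function.Injective (f1 (G := G) (n := n)) := by
  rintro ⟨y, l, x⟩ ⟨y', l', x'⟩ h
  unfold f1 at h
  simp only [Prod.mk.injEq] at h
  have h1 := List.append_inj' h.1 rfl
  simp only [List.cons.injEq, and_true] at h1
  simp [h1.1, h1.2, h.2]

theorem gl_f0 (v : G → ℝ) (w : Ix G n → Vt G n → ℝ) (x : G) : gl v w ([], x) = v x := by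
  unfold gl
  simp

theorem gl_f1 (v : G → ℝ) (w : Ix G n → Vt G n → ℝ) (y : Ix G n) (l : List (Ix G n)) (x : G) :
    gl v w (l ++ [y], x) = w y (l, x) := by
  unfold gl
  simp

theorem cover (a : Vt G n) : a ∈ Set.range (f0 (G := G) (n := n)) ∨
    a ∈ Set.range (f1 (G := G) (n := n)) := by
  obtain ⟨l, x⟩ := a
  rcases List.eq_nil_or_concat l with h | ⟨l', y, h⟩
  · left
    exact ⟨x, by unfold f0; rw [h]⟩
  · right
    exact ⟨(y, (l', x)), by unfold f1; rw [h]; simp⟩

theorem gl_meas : Measurable fun p : (G → ℝ) × (Ix G n → Vt G n → ℝ) => gl p.1 p.2 := by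
  rw [measurable_pi_iff]
  intro a
  rcases cover a with ⟨x, rfl⟩ | ⟨⟨y, l, x⟩, rfl⟩
  · have : (fun p : (G → ℝ) × (Ix G n → Vt G n → ℝ) => gl p.1 p.2 (f0 x)) = fun p => p.1 x := by
      funext p
      exact gl_f0 _ _ _
    rw [this]
    fun_prop
  · have : (fun p : (G → ℝ) × (Ix G n → Vt G n → ℝ) => gl p.1 p.2 (f1 (y, (l, x)))) =
        fun p => p.2 y (l, x) := by
      funext p
      exact gl_f1 _ _ _ _ _
    rw [this]
    fun_prop

theorem split_meas [Countable G] (μ : Measure ℝ) [IsProbabilityMeasure μ] :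
    ((Measure.infinitePi fun _ : G => μ).prod
      (Measure.infinitePi fun _ : Ix G n => Measure.infinitePi fun _ : Vt G n => μ)).map
      (fun p => gl p.1 p.2) = Measure.infinitePi fun _ : Vt G n => μ := by
  classical
  refine Measure.eq_infinitePi _ fun s t ht => ?_
  rw [Measure.map_apply gl_meas (MeasurableSet.pi s.countable_toSet fun i _ => ht i)]
  obtain ⟨s0, hs0⟩ : ∃ s0, s0 = s.preimage f0 f0_inj.injOn := ⟨_, rfl⟩
  obtain ⟨s1, hs1⟩ : ∃ s1, s1 = s.preimage f1 f1_inj.injOn := ⟨_, rfl⟩
  have h1 : (fun p : (G → ℝ) × (Ix G n → Vt G n → ℝ) => gl p.1 p.2) ⁻¹'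
      ((s : Set (Vt G n)).pi t) =
      ((s0 : Set G).pi fun x => t (f0 x)) ×ˢ
        ((MeasurableEquiv.curry (Ix G n) (Vt G n) ℝ).symm ⁻¹'
          ((s1 : Set (Ix G n × Vt G n)).pi fun p => t (f1 p))) := by
    ext ⟨v, w⟩
    simp only [Set.mem_preimage, Set.mem_pi, Set.mem_prod, Finset.mem_coe]
    constructor
    · intro h
      refine ⟨fun x hx => ?_, fun p hp => ?_⟩
      · rw [hs0, Finset.mem_preimage] at hx
        have := h _ hx
        rwa [show f0 x = ([], x) from rfl, gl_f0] at this
      · rw [hs1, Finset.mem_preimage] at hp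
        have := h _ hp
        obtain ⟨y, l, x⟩ := p
        rw [show f1 (y, (l, x)) = (l ++ [y], x) from rfl, gl_f1] at this
        exact this
    · rintro ⟨h2, h3⟩ a ha
      rcases cover a with ⟨x, hx⟩ | ⟨⟨y, l, x⟩, hp⟩
      · subst hx
        have := h2 x (by rw [hs0, Finset.mem_preimage]; exact ha)
        rw [show f0 x = ([], x) from rfl, gl_f0]
        exact this
      · subst hp
        have := h3 (y, (l, x)) (by rw [hs1, Finset.mem_preimage]; exact ha)
        rw [show f1 (y, (l, x)) = (l ++ [y], x) from rfl, gl_f1]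
        exact this
  rw [h1, Measure.prod_prod, Measure.infinitePi_pi _ fun i _ => ht _]
  have h2 : (Measure.infinitePi fun _ : Ix G n => Measure.infinitePi fun _ : Vt G n => μ)
      ((MeasurableEquiv.curry (Ix G n) (Vt G n) ℝ).symm ⁻¹'
          ((s1 : Set (Ix G n × Vt G n)).pi fun p => t (f1 p))) =
      ∏ p ∈ s1, μ (t (f1 p)) := by
    have h3 := Measure.infinitePi_map_curry_symm (ι := Ix G n) (κ := Vt G n) (fun _ _ => μ)
    rw [← Measure.map_apply (MeasurableEquiv.measurable _)
      (MeasurableSet.pi s1.countable_toSet fun i _ => ht _), h3,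
      Measure.infinitePi_pi _ fun i _ => ht _]
  rw [h2]
  have h3 : ∀ a : Vt G n, μ (t a) = (if a.1 = [] then μ (t a) else 1) *
      (if a.1 = [] then 1 else μ (t a)) := by
    intro a
    split_ifs <;> simp
  rw [Finset.prod_congr rfl fun a _ => h3 a, Finset.prod_mul_distrib, hs0, hs1]
  congr 1
  · rw [← Finset.prod_preimage f0 s f0_inj.injOn (fun a => if a.1 = [] then μ (t a) else 1)]
    · refine Finset.prod_congr rfl fun x _ => ?_
      rw [if_pos (by rfl)]
    · intro a _ hr
      rcases cover a with h | ⟨⟨y, l, x⟩, hp⟩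
      · exact absurd h hr
      · subst hp
        rw [if_neg]
        unfold f1
        simp
  · rw [← Finset.prod_preimage f1 s f1_inj.injOn (fun a => if a.1 = [] then 1 else μ (t a))]
    · refine Finset.prod_congr rfl fun p _ => ?_
      rw [if_neg]
      unfold f1
      simp
    · intro a _ hr
      rcases cover a with ⟨x, hx⟩ | h
      · subst hx
        rw [if_pos (by rfl)]
      · exact absurd h hr

theorem split : Pool.Agent.H987.Z.S_split := by
  intro G _ n ν _
  exact ⟨gl_f0, fun v w i p => gl_f1 v w i p.1 p.2, gl_meas, split_meas ν⟩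

end Pool.Agent.H282.Z987
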